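import Mathlib

/-!
# The total error of a row

`r j` is the squared size of the row inside the reserve of level `j` (antitone in `j`).  The exponent
`ee G B K r i` is the look ahead exponent of the level `i`.  The sum of the tolerances of the row over
all levels is bounded by a constant.
-/

namespace Pool.Agent.Helper81.KF

open Finset
open scoped Classical

noncomputable section

/-- look ahead exponent of a row -/
def ee (G B : ℝ) (K : ℕ) (r : ℕ → ℝ) (i : ℕ) : ℝ :=
  ∑ d ∈ range K, Real.log (1 + G ^ d * r (i + d) / B)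

/-- model sum of a dyadic class -/
def gs (m : ℤ) (n : ℕ) : ℝ := ∑ d ∈ range n, Real.log (1 + (2 : ℝ) ^ (m + d))

theorem gs_nonneg (m : ℤ) (n : ℕ) : 0 ≤ gs m n := by
  unfold gs
  apply sum_nonneg
  intro d _
  apply Real.log_nonneg
  have : (0 : ℝ) < (2 : ℝ) ^ (m + d) := by positivity
  linarith

theorem gs_low (m : ℤ) (n : ℕ) : ((n : ℝ) - ((-m).toNat : ℝ)) * Real.log 2 ≤ gs m n := by
  have h2 : 0 < Real.log 2 := Real.log_pos (by norm_num)
  induction n with
  | zero =>
    simp only [gs, range_zero, sum_empty, Nat.cast_zero, zero_sub]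
    have : (0 : ℝ) ≤ ((-m).toNat : ℝ) := by positivity
    nlinarith
  | succ n ih =>
    by_cases h : (-m).toNat ≤ n
    · have e : gs m (n + 1) = gs m n + Real.log (1 + (2 : ℝ) ^ (m + n)) := by
        simp only [gs, sum_range_succ]
      have h1 : Real.log 2 ≤ Real.log (1 + (2 : ℝ) ^ (m + n)) := by
        apply Real.log_le_log (by norm_num)
        have hm : (0 : ℤ) ≤ m + n := by omega
        have : (1 : ℝ) ≤ (2 : ℝ) ^ (m + n) := one_le_zpow₀ (by norm_num) hm
        linarith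
      rw [e]
      push_cast
      linarith
    · have h3 : (((n + 1 : ℕ) : ℝ) - ((-m).toNat : ℝ)) ≤ 0 := by
        have : n + 1 ≤ (-m).toNat := by omega
        have h4 : ((n + 1 : ℕ) : ℝ) ≤ ((-m).toNat : ℝ) := by exact_mod_cast this
        linarith
      have h5 := gs_nonneg m (n + 1)
      nlinarith

theorem gs_high (m : ℕ) (n : ℕ) : (n : ℝ) * (((m : ℝ) + 1) / 2 * Real.log 2) ≤ gs m n := by
  have h2 : 0 < Real.log 2 := Real.log_pos (by norm_num)
  unfold gs
  have : ∑ _d ∈ range n, (((m : ℝ) + 1) / 2 * Real.log 2) ≤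
      ∑ d ∈ range n, Real.log (1 + (2 : ℝ) ^ ((m : ℤ) + d)) := by
    apply sum_le_sum
    intro d _
    have h1 : (m : ℝ) * Real.log 2 ≤ Real.log (1 + (2 : ℝ) ^ ((m : ℤ) + d)) := by
      rw [← Real.log_pow]
      apply Real.log_le_log (by positivity)
      have : (2 : ℝ) ^ m ≤ (2 : ℝ) ^ ((m : ℤ) + d) := by
        have e : ((m : ℤ) + d) = ((m + d : ℕ) : ℤ) := by push_cast; ring
        rw [e, zpow_natCast]
        exact pow_le_pow_right₀ (by norm_num) (by omega)
      linarith
    have h3 : Real.log 2 ≤ Real.log (1 + (2 : ℝ) ^ ((m : ℤ) + d)) := by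
      apply Real.log_le_log (by norm_num)
      have : (1 : ℝ) ≤ (2 : ℝ) ^ ((m : ℤ) + d) := one_le_zpow₀ (by norm_num) (by omega)
      linarith
    linarith
  simpa using this

theorem ee_nonneg (G B : ℝ) (K : ℕ) (r : ℕ → ℝ) (i : ℕ) (hG : 0 ≤ G) (hB : 0 < B)
    (hr : ∀ i, 0 ≤ r i) : 0 ≤ ee G B K r i := by
  unfold ee
  apply sum_nonneg
  intro d _
  apply Real.log_nonneg
  have : 0 ≤ G ^ d * r (i + d) / B := div_nonneg (mul_nonneg (pow_nonneg hG d) (hr _)) hB.le
  linarith

/-- lower bound of the exponent inside a dyadic class -/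
theorem ee_low (G B : ℝ) (b K : ℕ) (r : ℕ → ℝ) (i q : ℕ) (a : ℤ) (hG : 2 ≤ G) (hB : 0 < B)
    (hBb : B ≤ 2 ^ b) (hr : ∀ i, 0 ≤ r i) (ha : Antitone r) (hiq : i ≤ q) (hqK : q < K)
    (hq : (2 : ℝ) ^ a ≤ r q) : gs (a - b) (q - i + 1) ≤ ee G B K r i := by
  unfold gs ee
  have hsub : range (q - i + 1) ⊆ range K := by
    intro x hx
    simp only [mem_range] at hx ⊢
    omega
  refine le_trans ?_ (sum_le_sum_of_subset_of_nonneg hsub ?_)
  · apply sum_le_sum
    intro d hd
    have hd' : d < q - i + 1 := by simpa using hd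
    apply Real.log_le_log (by positivity)
    have h1 : r q ≤ r (i + d) := ha (by omega)
    have h2 : (2 : ℝ) ^ d ≤ G ^ d := pow_le_pow_left₀ (by norm_num) hG d
    have e : (2 : ℝ) ^ (a - b + d) = 2 ^ d * 2 ^ a / 2 ^ b := by
      rw [zpow_add₀ (by norm_num), zpow_sub₀ (by norm_num), zpow_natCast, zpow_natCast]
      ring
    rw [e]
    have h3 : (2 : ℝ) ^ d * 2 ^ a ≤ G ^ d * r (i + d) :=
      mul_le_mul h2 (hq.trans h1) (by positivity) (by positivity)
    have h4 : (2 : ℝ) ^ d * 2 ^ a / 2 ^ b ≤ G ^ d * r (i + d) / B := by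
      apply div_le_div₀ (le_trans (by positivity) h3) h3 hB hBb
    linarith
  · intro d _ _
    apply Real.log_nonneg
    have : 0 ≤ G ^ d * r (i + d) / B := by
      have := hr (i + d)
      positivity
    linarith

/-- class sums, small classes -/
theorem cls_small (κ : ℝ) (hκ : 0 < κ) (m : ℤ) (K : ℕ) :
    ∑ D ∈ range K, Real.exp (-κ * gs m (D + 1)) ≤
      ((-m).toNat : ℝ) + 1 / (1 - Real.exp (-(κ * Real.log 2))) := by
  set σ := Real.exp (-(κ * Real.log 2)) with hσ
  have h2 : 0 < Real.log 2 := Real.log_pos (by norm_num)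
  have hσ1 : σ < 1 := by
    rw [hσ, Real.exp_lt_one_iff]
    have : 0 < κ * Real.log 2 := by positivity
    linarith
  have hσ0 : 0 < σ := Real.exp_pos _
  set N := (-m).toNat with hN
  have hle : ∑ D ∈ range K, Real.exp (-κ * gs m (D + 1)) ≤
      ∑ D ∈ range (N + K), Real.exp (-κ * gs m (D + 1)) :=
    sum_le_sum_of_subset_of_nonneg (range_mono (by omega)) (fun _ _ _ => (Real.exp_pos _).le)
  have hs : ∑ D ∈ range (N + K), Real.exp (-κ * gs m (D + 1)) =
      ∑ D ∈ range N, Real.exp (-κ * gs m (D + 1)) +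
      ∑ j ∈ range K, Real.exp (-κ * gs m (N + j + 1)) := by
    rw [sum_range_add]
  have h3 : ∑ D ∈ range N, Real.exp (-κ * gs m (D + 1)) ≤ N := by
    have : ∑ D ∈ range N, Real.exp (-κ * gs m (D + 1)) ≤ ∑ _D ∈ range N, (1 : ℝ) := by
      apply sum_le_sum
      intro D _
      rw [Real.exp_le_one_iff]
      have := gs_nonneg m (D + 1)
      nlinarith
    simpa using this
  have h4 : ∑ j ∈ range K, Real.exp (-κ * gs m (N + j + 1)) ≤ ∑ j ∈ range K, σ ^ j := by
    apply sum_le_sum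
    intro j _
    have h5 := gs_low m (N + j + 1)
    rw [← hN] at h5
    push_cast at h5
    rw [hσ, ← Real.exp_nat_mul]
    apply Real.exp_le_exp.2
    have h6 : (j : ℝ) * Real.log 2 ≤ gs m (N + j + 1) := by nlinarith
    nlinarith
  have h5 : ∑ j ∈ range K, σ ^ j ≤ 1 / (1 - σ) := by
    have := (summable_geometric_of_lt_one hσ0.le hσ1).sum_le_tsum (range K)
      (fun j _ => pow_nonneg hσ0.le j)
    rw [tsum_geometric_of_lt_one hσ0.le hσ1] at this
    simpa [one_div] using this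
  linarith

/-- class sums, large classes -/
theorem cls_large (κ : ℝ) (hκ : 0 < κ) (m : ℕ) (K : ℕ) :
    ∑ D ∈ range K, Real.exp (-κ * gs m (D + 1)) ≤
      Real.exp (-(κ * Real.log 2 / 2)) ^ m * (1 / (1 - Real.exp (-(κ * Real.log 2 / 2)))) := by
  set σ := Real.exp (-(κ * Real.log 2 / 2)) with hσ
  have h2 : 0 < Real.log 2 := Real.log_pos (by norm_num)
  have hσ1 : σ < 1 := by
    rw [hσ, Real.exp_lt_one_iff]
    have : 0 < κ * Real.log 2 / 2 := by positivity
    linarith
  have hσ0 : 0 < σ := Real.exp_pos _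
  have h5 : ∑ j ∈ range K, σ ^ j ≤ 1 / (1 - σ) := by
    have := (summable_geometric_of_lt_one hσ0.le hσ1).sum_le_tsum (range K)
      (fun j _ => pow_nonneg hσ0.le j)
    rw [tsum_geometric_of_lt_one hσ0.le hσ1] at this
    simpa [one_div] using this
  have h4 : ∑ D ∈ range K, Real.exp (-κ * gs m (D + 1)) ≤ ∑ D ∈ range K, σ ^ m * σ ^ D := by
    apply sum_le_sum
    intro D _
    have h6 := gs_high m (D + 1)
    push_cast at h6
    rw [← pow_add, hσ, ← Real.exp_nat_mul]
    apply Real.exp_le_exp.2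
    push_cast
    have h7 : ((m : ℝ) + D) / 2 * Real.log 2 ≤ ((D : ℝ) + 1) * (((m : ℝ) + 1) / 2 * Real.log 2) := by
      have : (0 : ℝ) ≤ (m : ℝ) * D := by positivity
      nlinarith
    nlinarith
  rw [← mul_sum] at h4
  exact h4.trans (mul_le_mul_of_nonneg_left h5 (pow_nonneg hσ0.le m))

/-- the bound of the dyadic class `a` -/
def FF (κ c : ℝ) (b : ℕ) : ℤ → ℝ
  | Int.ofNat n => ((b : ℝ) + 1 / (1 - Real.exp (-(κ * Real.log 2))) +
      1 / (1 - Real.exp (-(κ * Real.log 2 / 2)))) * (Real.exp (-(κ * Real.log 2 / 2)))⁻¹ ^ b *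
      Real.exp (-(κ * Real.log 2 / 2)) ^ n
  | Int.negSucc n => ((b : ℝ) + n + 1 + 1 / (1 - Real.exp (-(κ * Real.log 2)))) *
      Real.exp (-(c * Real.log 2)) ^ n

theorem FF_summable (κ c : ℝ) (b : ℕ) (hκ : 0 < κ) (hc : 0 < c) : Summable (FF κ c b) := by
  have h2 : 0 < Real.log 2 := Real.log_pos (by norm_num)
  apply Summable.of_nat_of_neg_add_one
  · have : (fun n : ℕ => FF κ c b n) = fun n : ℕ =>
        ((b : ℝ) + 1 / (1 - Real.exp (-(κ * Real.log 2))) +
        1 / (1 - Real.exp (-(κ * Real.log 2 / 2)))) * (Real.exp (-(κ * Real.log 2 / 2)))⁻¹ ^ b *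
        Real.exp (-(κ * Real.log 2 / 2)) ^ n := by
      funext n
      rfl
    rw [this]
    apply Summable.mul_left
    apply summable_geometric_of_lt_one (Real.exp_pos _).le
    rw [Real.exp_lt_one_iff]
    have : 0 < κ * Real.log 2 / 2 := by positivity
    linarith
  · have : (fun n : ℕ => FF κ c b (-((n : ℤ) + 1))) = fun n : ℕ =>
        ((b : ℝ) + 1 + 1 / (1 - Real.exp (-(κ * Real.log 2)))) *
        Real.exp (-(c * Real.log 2)) ^ n + (n : ℝ) ^ 1 * Real.exp (-(c * Real.log 2)) ^ n := by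
      funext n
      have e : (-((n : ℤ) + 1)) = Int.negSucc n := by
        rw [Int.negSucc_eq]
      rw [e]
      simp only [FF]
      ring
    rw [this]
    have hlt : Real.exp (-(c * Real.log 2)) < 1 := by
      rw [Real.exp_lt_one_iff]
      have : 0 < c * Real.log 2 := by positivity
      linarith
    apply Summable.add
    · exact (summable_geometric_of_lt_one (Real.exp_pos _).le hlt).mul_left _
    · apply summable_pow_mul_geometric_of_norm_lt_one 1
      rw [Real.norm_eq_abs, abs_of_pos (Real.exp_pos _)]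
      exact hlt

theorem FF_nonneg (κ c : ℝ) (b : ℕ) (hκ : 0 < κ) (a : ℤ) : 0 ≤ FF κ c b a := by
  have h2 : 0 < Real.log 2 := Real.log_pos (by norm_num)
  have h3 : Real.exp (-(κ * Real.log 2)) < 1 := by
    rw [Real.exp_lt_one_iff]
    have : 0 < κ * Real.log 2 := by positivity
    linarith
  have h4 : Real.exp (-(κ * Real.log 2 / 2)) < 1 := by
    rw [Real.exp_lt_one_iff]
    have : 0 < κ * Real.log 2 / 2 := by positivity
    linarith
  have h5 : 0 < 1 / (1 - Real.exp (-(κ * Real.log 2))) := by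
    apply div_pos one_pos; linarith
  have h6 : 0 < 1 / (1 - Real.exp (-(κ * Real.log 2 / 2))) := by
    apply div_pos one_pos; linarith
  cases a with
  | ofNat n => simp only [FF]; positivity
  | negSucc n => simp only [FF]; positivity

/-- the sum over one dyadic class -/
theorem cls_bound (G B κ c : ℝ) (b K : ℕ) (r : ℕ → ℝ) (a : ℤ) (hG : 2 ≤ G) (hB : 0 < B)
    (hBb : B ≤ 2 ^ b) (hκ : 0 < κ) (hc : 0 < c) (hr : ∀ i, 0 ≤ r i) (ha : Antitone r)
    (I : Finset ℕ) (hI : ∀ i ∈ I, i < K ∧ 0 < r i ∧ Int.log 2 (r i) = a) :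
    ∑ i ∈ I, Real.exp (-κ * ee G B K r i) * (min 1 (r i)) ^ c ≤ FF κ c b a := by
  rcases I.eq_empty_or_nonempty with hE | hne
  · rw [hE, sum_empty]
    exact FF_nonneg κ c b hκ a
  set q := I.max' hne with hq
  have hqI : q ∈ I := I.max'_mem hne
  obtain ⟨hqK, hrq, hlq⟩ := hI q hqI
  have hq2 : (2 : ℝ) ^ a ≤ r q := by
    have := Int.zpow_log_le_self (b := 2) (by norm_num) hrq
    rw [hlq] at this
    exact_mod_cast this
  -- the prefactor
  set M : ℝ := (min 1 ((2 : ℝ) ^ (a + 1))) ^ c with hM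
  have hM0 : 0 ≤ M := by positivity
  have h1 : ∀ i ∈ I, Real.exp (-κ * ee G B K r i) * (min 1 (r i)) ^ c ≤
      M * Real.exp (-κ * gs (a - b) (q - i + 1)) := by
    intro i hi
    obtain ⟨hiK, hri, hli⟩ := hI i hi
    have hiq : i ≤ q := I.le_max' i hi
    have h3 := ee_low G B b K r i q a hG hB hBb hr ha hiq hqK hq2
    have h4 : Real.exp (-κ * ee G B K r i) ≤ Real.exp (-κ * gs (a - b) (q - i + 1)) := by
      apply Real.exp_le_exp.2
      nlinarith
    have h5 : r i ≤ (2 : ℝ) ^ (a + 1) := by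
      have := Int.lt_zpow_succ_log_self (b := 2) (by norm_num) (r i)
      rw [hli] at this
      exact_mod_cast this.le
    have h6 : (min 1 (r i)) ^ c ≤ M := by
      apply Real.rpow_le_rpow (le_min zero_le_one (hr i)) (min_le_min le_rfl h5) hc.le
    calc _ ≤ Real.exp (-κ * gs (a - b) (q - i + 1)) * M :=
          mul_le_mul h4 h6 (Real.rpow_nonneg (le_min zero_le_one (hr i)) _) (Real.exp_pos _).le
      _ = _ := mul_comm _ _
  have h7 : ∑ i ∈ I, Real.exp (-κ * gs (a - b) (q - i + 1)) ≤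
      ∑ D ∈ range K, Real.exp (-κ * gs (a - b) (D + 1)) := by
    have hinj : Set.InjOn (fun i => q - i) (I : Set ℕ) := by
      intro x hx y hy hxy
      have hx' : x ≤ q := I.le_max' x hx
      have hy' : y ≤ q := I.le_max' y hy
      simp only at hxy
      omega
    have e : ∑ i ∈ I, Real.exp (-κ * gs (a - b) (q - i + 1)) =
        ∑ D ∈ I.image (fun i => q - i), Real.exp (-κ * gs (a - b) (D + 1)) := by
      rw [sum_image hinj]
    rw [e]
    apply sum_le_sum_of_subset_of_nonneg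
    · intro D hD
      rw [mem_image] at hD
      obtain ⟨i, hi, rfl⟩ := hD
      rw [mem_range]
      omega
    · intro _ _ _
      exact (Real.exp_pos _).le
  have h8 : ∑ i ∈ I, Real.exp (-κ * ee G B K r i) * (min 1 (r i)) ^ c ≤
      M * ∑ D ∈ range K, Real.exp (-κ * gs (a - b) (D + 1)) := by
    refine (sum_le_sum h1).trans ?_
    rw [← mul_sum]
    exact mul_le_mul_of_nonneg_left h7 hM0
  refine h8.trans ?_
  have h2 : 0 < Real.log 2 := Real.log_pos (by norm_num)
  have hs1 : Real.exp (-(κ * Real.log 2)) < 1 := by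
    rw [Real.exp_lt_one_iff]
    have : 0 < κ * Real.log 2 := by positivity
    linarith
  have hs2 : Real.exp (-(κ * Real.log 2 / 2)) < 1 := by
    rw [Real.exp_lt_one_iff]
    have : 0 < κ * Real.log 2 / 2 := by positivity
    linarith
  set s1 : ℝ := 1 / (1 - Real.exp (-(κ * Real.log 2))) with hs1d
  set s2 : ℝ := 1 / (1 - Real.exp (-(κ * Real.log 2 / 2))) with hs2d
  have hs1p : 0 < s1 := by
    apply div_pos one_pos; linarith
  have hs2p : 0 < s2 := by
    apply div_pos one_pos; linarith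
  set σ : ℝ := Real.exp (-(κ * Real.log 2 / 2)) with hσ
  have hσ0 : 0 < σ := Real.exp_pos _
  cases a with
  | ofNat n =>
    have hM1 : M ≤ 1 := by
      apply Real.rpow_le_one (by positivity) (min_le_left _ _) hc.le
    have hFF : FF κ c b (Int.ofNat n) = ((b : ℝ) + s1 + s2) * σ⁻¹ ^ b * σ ^ n := rfl
    rw [hFF]
    by_cases hbn : b ≤ n
    · obtain ⟨m, rfl⟩ := Nat.exists_eq_add_of_le hbn
      have e : ((Int.ofNat (b + m) : ℤ) - b) = (m : ℤ) := by
        simp
      rw [e]
      have h9 := cls_large κ hκ m K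
      rw [← hσ, ← hs2d] at h9
      have h10 : ((b : ℝ) + s1 + s2) * σ⁻¹ ^ b * σ ^ (b + m) = ((b : ℝ) + s1 + s2) * σ ^ m := by
        rw [pow_add, inv_pow]
        field_simp
      rw [h10]
      have h11 : 0 ≤ ∑ D ∈ range K, Real.exp (-κ * gs m (D + 1)) :=
        sum_nonneg (fun _ _ => (Real.exp_pos _).le)
      calc _ ≤ 1 * ∑ D ∈ range K, Real.exp (-κ * gs m (D + 1)) :=
            mul_le_mul_of_nonneg_right hM1 h11
        _ ≤ σ ^ m * s2 := by rw [one_mul]; exact h9
        _ ≤ _ := by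
          have : 0 < σ ^ m := pow_pos hσ0 m
          have hb : (0 : ℝ) ≤ b := by positivity
          nlinarith [mul_nonneg this.le (add_nonneg hb hs1p.le)]
    · have h9 := cls_small κ hκ ((Int.ofNat n : ℤ) - b) K
      rw [← hs1d] at h9
      have h11 : 0 ≤ ∑ D ∈ range K, Real.exp (-κ * gs ((Int.ofNat n : ℤ) - b) (D + 1)) :=
        sum_nonneg (fun _ _ => (Real.exp_pos _).le)
      have h12 : (((-((Int.ofNat n : ℤ) - b)).toNat : ℕ) : ℝ) ≤ b := by
        have : (-((Int.ofNat n : ℤ) - b)).toNat ≤ b := by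
          simp only [Int.ofNat_eq_natCast]
          omega
        exact_mod_cast this
      have h13 : 1 ≤ σ⁻¹ ^ b * σ ^ n := by
        have hle : σ ^ b ≤ σ ^ n := pow_le_pow_of_le_one hσ0.le hs2.le (by omega)
        rw [inv_pow, ← div_eq_inv_mul, le_div_iff₀ (pow_pos hσ0 b)]
        linarith
      calc _ ≤ 1 * ∑ D ∈ range K, Real.exp (-κ * gs ((Int.ofNat n : ℤ) - b) (D + 1)) :=
            mul_le_mul_of_nonneg_right hM1 h11
        _ ≤ ((b : ℝ) + s1 + s2) * 1 := by rw [one_mul, mul_one]; linarith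
        _ ≤ ((b : ℝ) + s1 + s2) * (σ⁻¹ ^ b * σ ^ n) :=
          mul_le_mul_of_nonneg_left h13 (by positivity)
        _ = _ := by ring
  | negSucc n =>
    have hFF : FF κ c b (Int.negSucc n) = ((b : ℝ) + n + 1 + s1) *
      Real.exp (-(c * Real.log 2)) ^ n := rfl
    rw [hFF]
    have h9 := cls_small κ hκ ((Int.negSucc n : ℤ) - b) K
    rw [← hs1d] at h9
    have h12 : (((-((Int.negSucc n : ℤ) - b)).toNat : ℕ) : ℝ) ≤ b + n + 1 := by
      have : (-((Int.negSucc n : ℤ) - b)).toNat = b + n + 1 := by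
        rw [Int.negSucc_eq]
        omega
      rw [this]
      push_cast
      exact le_rfl
    have hMle : M ≤ Real.exp (-(c * Real.log 2)) ^ n := by
      have e1 : (2 : ℝ) ^ ((Int.negSucc n : ℤ) + 1) = ((2 : ℝ) ^ n)⁻¹ := by
        rw [Int.negSucc_eq]
        have : (-((n : ℤ) + 1) + 1) = -(n : ℤ) := by ring
        rw [this, zpow_neg, zpow_natCast]
      have e2 : Real.exp (-(c * Real.log 2)) ^ n = (((2 : ℝ) ^ n)⁻¹) ^ c := by
        rw [Real.rpow_def_of_pos (by positivity), Real.log_inv, Real.log_pow, ← Real.exp_nat_mul]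
        ring_nf
      rw [hM, e1, e2]
      apply Real.rpow_le_rpow (by positivity) (min_le_right _ _) hc.le
    have h11 : 0 ≤ ∑ D ∈ range K, Real.exp (-κ * gs ((Int.negSucc n : ℤ) - b) (D + 1)) :=
      sum_nonneg (fun _ _ => (Real.exp_pos _).le)
    calc _ ≤ Real.exp (-(c * Real.log 2)) ^ n *
          ∑ D ∈ range K, Real.exp (-κ * gs ((Int.negSucc n : ℤ) - b) (D + 1)) :=
            mul_le_mul_of_nonneg_right hMle h11
      _ ≤ Real.exp (-(c * Real.log 2)) ^ n * ((b : ℝ) + n + 1 + s1) := by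
        apply mul_le_mul_of_nonneg_left _ (by positivity)
        linarith
      _ = _ := by ring

/-- the total error of a row -/
theorem row_sum (G B κ c : ℝ) (hG : 2 ≤ G) (hB : 0 < B) (hκ : 0 < κ) (hc : 0 < c) :
    ∃ C : ℝ, 0 < C ∧ ∀ (K : ℕ) (r : ℕ → ℝ), (∀ i, 0 ≤ r i) → Antitone r →
      ∑ i ∈ range K, Real.exp (-κ * ee G B K r i) * (min 1 (r i)) ^ c ≤ C := by
  obtain ⟨b, hb⟩ := pow_unbounded_of_one_lt B (one_lt_two : (1 : ℝ) < 2)
  refine ⟨∑' a, FF κ c b a + 1, ?_, ?_⟩
  · have : 0 ≤ ∑' a, FF κ c b a := tsum_nonneg (FF_nonneg κ c b hκ)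
    linarith
  · intro K r hr ha
    have hz : ∀ i ∈ range K, i ∉ (range K).filter (fun i => 0 < r i) →
        Real.exp (-κ * ee G B K r i) * (min 1 (r i)) ^ c = 0 := by
      intro i hi hi'
      have h0 : r i = 0 := by
        by_contra hne
        exact hi' (mem_filter.2 ⟨hi, lt_of_le_of_ne (hr i) (Ne.symm hne)⟩)
      rw [h0, min_eq_right zero_le_one, Real.zero_rpow hc.ne', mul_zero]
    rw [← sum_subset (filter_subset _ _) hz]
    set I := (range K).filter (fun i => 0 < r i) with hI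
    set A := I.image (fun i => Int.log 2 (r i)) with hA
    have e := sum_fiberwise_of_maps_to (s := I) (t := A) (g := fun i => Int.log 2 (r i))
      (fun i hi => mem_image_of_mem _ hi)
      (fun i => Real.exp (-κ * ee G B K r i) * (min 1 (r i)) ^ c)
    rw [← e]
    have h1 : ∑ a ∈ A, ∑ i ∈ I with Int.log 2 (r i) = a,
        Real.exp (-κ * ee G B K r i) * (min 1 (r i)) ^ c ≤ ∑ a ∈ A, FF κ c b a := by
      apply sum_le_sum
      intro a _
      apply cls_bound G B κ c b K r a hG hB hb.le hκ hc hr ha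
      intro i hi
      rw [mem_filter, hI, mem_filter, mem_range] at hi
      exact ⟨hi.1.1, hi.1.2, hi.2⟩
    have h2 := (FF_summable κ c b hκ hc).sum_le_tsum A (fun a _ => FF_nonneg κ c b hκ a)
    linarith

end

end Pool.Agent.Helper81.KF
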