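import Pool.Agent.Helper37.KF.Stmts
import Pool.Agent.Helper61.NF.Proj

/-!
# Signing for functionals with cheap rows
-/

namespace Pool.Agent.Helper81.KF

open Finset Pool.Agent.Helper38.ZS Pool.Agent.Helper37.KF
open scoped Classical

noncomputable section

variable {V R : Type} [Fintype V] [Fintype R]

/-- the vector of the range -/
def MF (a : V → R → ℝ) (lam : R → ℝ) (w : V → ℝ) (y : R → ℝ) : V ⊕ R → ℝ
  | Sum.inl v => w v * fn a v y
  | Sum.inr S => lam S * y S

omit [Fintype V] in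
theorem fn_add (a : V → R → ℝ) (v : V) (x y : R → ℝ) :
    fn a v (x + y) = fn a v x + fn a v y := by
  unfold fn
  rw [← sum_add_distrib]
  apply sum_congr rfl
  intro S _
  rw [Pi.add_apply]
  ring

omit [Fintype V] in
theorem fn_smul (a : V → R → ℝ) (v : V) (c : ℝ) (y : R → ℝ) :
    fn a v (c • y) = c * fn a v y := by
  unfold fn
  rw [mul_sum]
  apply sum_congr rfl
  intro S _
  rw [Pi.smul_apply, smul_eq_mul]
  ring

/-- the range -/
def ranM (a : V → R → ℝ) (lam : R → ℝ) (w : V → ℝ) : Submodule ℝ (V ⊕ R → ℝ) where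
  carrier := {g | ∃ y, g = MF a lam w y}
  add_mem' := by
    rintro _ _ ⟨x, rfl⟩ ⟨y, rfl⟩
    refine ⟨x + y, ?_⟩
    funext k
    rcases k with v | j
    · show w v * fn a v x + w v * fn a v y = w v * fn a v (x + y)
      rw [fn_add]
      ring
    · show lam j * x j + lam j * y j = lam j * (x + y) j
      rw [Pi.add_apply]
      ring
  zero_mem' := ⟨0, by
    funext k
    rcases k with v | j
    · show (0 : ℝ) = w v * fn a v 0
      simp [fn]
    · show (0 : ℝ) = lam j * (0 : R → ℝ) j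
      simp⟩
  smul_mem' := by
    rintro c _ ⟨y, rfl⟩
    refine ⟨c • y, ?_⟩
    funext k
    rcases k with v | j
    · show c * (w v * fn a v y) = w v * fn a v (c • y)
      rw [fn_smul]
      ring
    · show c * (lam j * y j) = lam j * (c • y) j
      rw [Pi.smul_apply, smul_eq_mul]
      ring

theorem sum_compl_le {I : Type} [Fintype I] (X : Finset I) (G H : I → ℝ) (h0 : ∀ i ∈ X, 0 ≤ H i)
    (h1 : ∀ i, i ∉ X → G i ≤ H i) : ∑ i ∈ Xᶜ, G i ≤ ∑ i, H i := by
  have h2 : ∑ i ∈ Xᶜ, G i ≤ ∑ i ∈ Xᶜ, H i :=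
    sum_le_sum (fun i hi => h1 i (by rwa [mem_compl] at hi))
  have h3 := sum_add_sum_compl X H
  have h4 : 0 ≤ ∑ i ∈ X, H i := sum_nonneg h0
  linarith

theorem sum_cost_le {I : Type} [Fintype I] (X Q : Finset I) (f θ H : I → ℝ) (L : ℝ)
    (h1 : ∀ i ∈ X, i ∉ Q → 0 ≤ H i) (h2 : ∀ i ∈ Q, θ i * |f i| ≤ H i)
    (h3 : ∀ i, i ∉ X → i ∉ Q → L * |f i| ≤ H i) :
    L * l1 f (X ∪ Q)ᶜ + ∑ j ∈ Q, θ j * |f j| ≤ ∑ i, H i := by
  have h4 : L * l1 f (X ∪ Q)ᶜ ≤ ∑ i, (if i ∈ Q then 0 else H i) := by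
    unfold l1
    rw [mul_sum]
    apply sum_compl_le
    · intro i hi
      by_cases h : i ∈ Q
      · rw [if_pos h]
      · rw [if_neg h]
        rcases mem_union.1 hi with h' | h'
        · exact h1 i h' h
        · exact absurd h' h
    · intro i hi
      rw [mem_union, not_or] at hi
      rw [if_neg hi.2]
      exact h3 i hi.1 hi.2
  have h5 : ∑ j ∈ Q, θ j * |f j| ≤ ∑ i, (if i ∈ Q then H i else 0) := by
    rw [sum_ite_mem, univ_inter]
    exact sum_le_sum h2
  have h6 : ∑ i, (if i ∈ Q then 0 else H i) + ∑ i, (if i ∈ Q then H i else 0) = ∑ i, H i := by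
    rw [← sum_add_distrib]
    apply sum_congr rfl
    intro i _
    split_ifs <;> ring
  linarith

theorem st_signf (hs : Pool.Agent.Helper37.KF.ST_SIGN) : ST_SIGNF := by
  intro β hβ hβ1
  obtain ⟨η0, L, θ0, hη0, hL, hθ0, hθ1, H⟩ := hs β hβ hβ1
  have hθp : 0 < θ0 ^ (1 / 200 : ℝ) := Real.rpow_pos_of_pos hθ0 _
  have hθp1 : θ0 ^ (1 / 200 : ℝ) ≤ 1 := Real.rpow_le_one hθ0.le hθ1 (by norm_num)
  refine ⟨min η0 1, L / θ0 ^ (1 / 200 : ℝ), lt_min hη0 one_pos, min_le_right _ _, ?_, ?_⟩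
  · rw [le_div_iff₀ hθp]
    linarith
  have hC1 : L ≤ L / θ0 ^ (1 / 200 : ℝ) := by
    rw [le_div_iff₀ hθp]
    nlinarith
  set C := L / θ0 ^ (1 / 200 : ℝ) with hC
  intro V R _ _ a lam q T E hTE hlam hq0 hq1 hlev
  obtain ⟨w, hw⟩ : ∃ w : V → ℝ, w = fun v => if v ∈ E then 1 else if v ∈ T then q v else 0 :=
    ⟨_, rfl⟩
  have hwE : ∀ v ∈ E, w v = 1 := by
    intro v hv
    rw [hw]
    simp [hv]
  have hwT : ∀ v ∈ T, w v = q v := by
    intro v hv
    have h1 : v ∉ E := disjoint_left.mp hTE hv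
    rw [hw]
    simp [hv, h1]
  have hwN : ∀ v, v ∉ E → v ∉ T → w v = 0 := by
    intro v h1 h2
    rw [hw]
    simp [h1, h2]
  have hw0 : ∀ v, 0 ≤ w v := by
    intro v
    rw [hw]
    simp only
    split_ifs
    · exact zero_le_one
    · exact hq0 v
    · exact le_rfl
  have hw1 : ∀ v, w v ≤ 1 := by
    intro v
    rw [hw]
    simp only
    split_ifs
    · exact le_rfl
    · exact hq1 v
    · exact zero_le_one
  obtain ⟨r, hr⟩ : ∃ r : R → ℝ, r = fun S => ∑ v ∈ T ∪ E, a v S ^ 2 := ⟨_, rfl⟩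
  have hr0 : ∀ S, 0 ≤ r S := by
    intro S
    rw [hr]
    exact sum_nonneg (fun v _ => sq_nonneg _)
  obtain ⟨P, hP, hfix, hcol⟩ := Pool.Agent.Helper61.NF.exists_proj (ranM a lam w)
  obtain ⟨X, hX⟩ : ∃ X : Finset (V ⊕ R), X = E.map Function.Embedding.inl := ⟨_, rfl⟩
  obtain ⟨Qr, hQr⟩ : ∃ Qr : Finset R, Qr = univ.filter (fun S => 0 < r S ∧ r S / lam S ^ 2 ≤ θ0) :=
    ⟨_, rfl⟩
  obtain ⟨Q, hQ⟩ : ∃ Q : Finset (V ⊕ R), Q = Qr.map Function.Embedding.inr := ⟨_, rfl⟩
  have hmX : ∀ v, Sum.inl v ∈ X ↔ v ∈ E := by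
    intro v
    rw [hX]
    simp
  have hmX' : ∀ S, Sum.inr S ∉ X := by
    intro S
    rw [hX]
    simp
  have hmQ : ∀ S, Sum.inr S ∈ Q ↔ S ∈ Qr := by
    intro v
    rw [hQ]
    simp
  have hmQ' : ∀ v, Sum.inl v ∉ Q := by
    intro S
    rw [hQ]
    simp
  have hQm : ∀ S ∈ Qr, 0 < r S ∧ r S / lam S ^ 2 ≤ θ0 := by
    intro S hS
    rw [hQr, mem_filter] at hS
    exact hS.2
  -- the directions
  obtain ⟨B, hB⟩ : ∃ B : V ⊕ R → V ⊕ R → ℝ, B = fun j => Sum.elim (fun _ => 0)
      (fun S => MF a lam w (Pi.single S (lam S)⁻¹)) j := ⟨_, rfl⟩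
  have hBr : ∀ S, B (Sum.inr S) = MF a lam w (Pi.single S (lam S)⁻¹) := by
    intro S
    rw [hB]
    rfl
  have hBl : ∀ S v, B (Sum.inr S) (Sum.inl v) = w v * (a v S * (lam S)⁻¹) := by
    intro S v
    rw [hBr]
    show w v * fn a v (Pi.single S (lam S)⁻¹) = _
    congr 1
    unfold fn
    rw [sum_eq_single S]
    · rw [Pi.single_eq_same]
    · intro S' _ hne
      rw [Pi.single_eq_of_ne hne, mul_zero]
    · intro h
      exact absurd (mem_univ S) h
  have hBs : ∀ S S', B (Sum.inr S) (Sum.inr S') = if S' = S then 1 else 0 := by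
    intro S S'
    rw [hBr]
    show lam S' * (Pi.single S (lam S)⁻¹ : R → ℝ) S' = _
    by_cases h : S' = S
    · rw [h, Pi.single_eq_same, if_pos rfl]
      exact mul_inv_cancel₀ (hlam S).ne'
    · rw [Pi.single_eq_of_ne h, if_neg h, mul_zero]
  have hQr' : ∀ j ∈ Q, ∃ S ∈ Qr, j = Sum.inr S := by
    intro j hj
    rw [hQ, mem_map] at hj
    obtain ⟨S, hS, rfl⟩ := hj
    exact ⟨S, hS, rfl⟩
  obtain ⟨θ, hθ⟩ : ∃ θ : V ⊕ R → ℝ, θ = Sum.elim (fun _ => 0) (fun S => r S / lam S ^ 2) :=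
    ⟨_, rfl⟩
  have hθr : ∀ S, θ (Sum.inr S) = r S / lam S ^ 2 := by
    intro S
    rw [hθ]
    rfl
  have hcheap : Cheap P Q θ0 θ B := by
    refine ⟨?_, ?_, ?_, ?_, ?_, ?_⟩
    · intro j hj
      obtain ⟨S, hS, rfl⟩ := hQr' j hj
      rw [hθr]
      exact div_pos (hQm S hS).1 (pow_pos (hlam S) 2)
    · intro j hj
      obtain ⟨S, hS, rfl⟩ := hQr' j hj
      rw [hθr]
      exact (hQm S hS).2
    · intro j hj
      obtain ⟨S, hS, rfl⟩ := hQr' j hj
      apply hfix
      exact ⟨_, hBr S⟩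
    · intro j hj
      obtain ⟨S, hS, rfl⟩ := hQr' j hj
      rw [hBs, if_pos rfl]
    · intro j hj k hk hkj
      obtain ⟨S, hS, rfl⟩ := hQr' j hj
      obtain ⟨S', hS', rfl⟩ := hQr' k hk
      rw [hBs, if_neg]
      intro h
      exact hkj (by rw [h])
    · intro j hj
      obtain ⟨S, hS, rfl⟩ := hQr' j hj
      rw [hθr]
      have e1 : ∑ v ∈ T ∪ E, (a v S * (lam S)⁻¹) ^ 2 = r S / lam S ^ 2 := by
        rw [hr]
        simp only
        rw [sum_div]
        apply sum_congr rfl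
        intro v _
        rw [mul_pow, inv_pow]
        rfl
      have e2 : ∑ i : V ⊕ R, Sum.elim (fun v => if v ∈ T ∪ E then (a v S * (lam S)⁻¹) ^ 2 else 0)
          (fun _ : R => (0 : ℝ)) i = r S / lam S ^ 2 := by
        rw [Fintype.sum_sum_type, ← e1]
        simp only [Sum.elim_inl, Sum.elim_inr, sum_const_zero, add_zero]
        rw [sum_ite_mem, univ_inter]
      rw [← e2]
      apply sum_compl_le
      · intro i _
        rcases i with v | S'
        · simp only [Sum.elim_inl]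
          split_ifs
          · exact sq_nonneg _
          · exact le_rfl
        · exact le_rfl
      · intro i hi
        rcases i with v | S'
        · simp only [Sum.elim_inl]
          rw [hBl]
          by_cases h : v ∈ T ∪ E
          · rw [if_pos h]
            have h1 := hw0 v
            have h2 := hw1 v
            have h3 : 0 ≤ (a v S * (lam S)⁻¹) ^ 2 := sq_nonneg _
            rw [mul_pow]
            have h4 : w v ^ 2 ≤ 1 := by nlinarith
            nlinarith
          · rw [if_neg h]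
            have h1 : v ∉ E := fun h' => h (mem_union_right _ h')
            have h2 : v ∉ T := fun h' => h (mem_union_left _ h')
            rw [hwN v h1 h2]
            simp
        · simp only [Sum.elim_inr]
          rw [hBs, if_neg, zero_pow (by norm_num)]
          intro h2
          rw [h2] at hi
          exact hi hj
  have hXQ : Disjoint X Q := by
    rw [disjoint_left]
    intro i hi hi2
    obtain ⟨S, _, rfl⟩ := hQr' i hi2
    exact hmX' S hi
  have hPX : ∀ i ∈ X, P i i ≤ η0 := by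
    intro i hi
    rw [hX, mem_map] at hi
    obtain ⟨u, hu, rfl⟩ := hi
    apply Pool.Agent.Helper61.NF.diag_le (ranM a lam w) P hP hcol _ η0 hη0.le
    rintro g ⟨y, rfl⟩
    have h1 : MF a lam w y (Function.Embedding.inl u) = fn a u y := by
      show w u * fn a u y = fn a u y
      rw [hwE u hu, one_mul]
    rw [h1, Fintype.sum_sum_type]
    refine (hlev u hu y).trans ?_
    have h2 : ∑ v ∈ T, (q v * fn a v y) ^ 2 ≤ ∑ v, MF a lam w y (Sum.inl v) ^ 2 := by
      have e1 : ∑ v ∈ T, (q v * fn a v y) ^ 2 = ∑ v ∈ T, MF a lam w y (Sum.inl v) ^ 2 := by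
        apply sum_congr rfl
        intro v hv
        show _ = (w v * fn a v y) ^ 2
        rw [hwT v hv]
      rw [e1]
      exact sum_le_sum_of_subset_of_nonneg (subset_univ _) (fun _ _ _ => sq_nonneg _)
    have h3 : ∑ S, (lam S * y S) ^ 2 = ∑ S, MF a lam w y (Sum.inr S) ^ 2 := rfl
    have h4 : 0 ≤ ∑ S, (lam S * y S) ^ 2 := sum_nonneg (fun _ _ => sq_nonneg _)
    have h5 : 0 ≤ ∑ v ∈ T, (q v * fn a v y) ^ 2 := sum_nonneg (fun _ _ => sq_nonneg _)
    calc min η0 1 * (∑ S, (lam S * y S) ^ 2 + ∑ v ∈ T, (q v * fn a v y) ^ 2)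
        ≤ η0 * (∑ S, (lam S * y S) ^ 2 + ∑ v ∈ T, (q v * fn a v y) ^ 2) :=
          mul_le_mul_of_nonneg_right (min_le_left _ _) (add_nonneg h4 h5)
      _ ≤ _ := by
          apply mul_le_mul_of_nonneg_left _ hη0.le
          rw [h3] at *
          linarith
  obtain ⟨ξ, hξ, hH⟩ := H (V ⊕ R) P X Q θ B hP hPX hXQ hcheap
  refine ⟨fun v => ξ (Sum.inl v), fun v => hξ _, ?_⟩
  intro y0
  -- drop the empty rows
  obtain ⟨y, hy⟩ : ∃ y : R → ℝ, y = fun S => if r S = 0 then 0 else y0 S := ⟨_, rfl⟩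
  have hfn : ∀ v ∈ T ∪ E, fn a v y = fn a v y0 := by
    intro v hv
    unfold fn
    apply sum_congr rfl
    intro S _
    rw [hy]
    simp only
    by_cases h : r S = 0
    · rw [if_pos h]
      have h1 : a v S = 0 := by
        have h2 : ∑ v ∈ T ∪ E, a v S ^ 2 = 0 := by
          rw [← h, hr]
        have h3 := (sum_eq_zero_iff_of_nonneg (fun v _ => sq_nonneg _)).mp h2 v hv
        exact pow_eq_zero_iff (by norm_num) |>.mp h3
      rw [h1]
      ring
    · rw [if_neg h]
  have hya : ∀ S, |y S| ≤ |y0 S| := by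
    intro S
    rw [hy]
    simp only
    split_ifs
    · rw [abs_zero]
      exact abs_nonneg _
    · exact le_rfl
  have h1 := hH (MF a lam w y) (hfix _ ⟨y, rfl⟩)
  have h3 : ∀ G : V ⊕ R → ℝ, ∑ i ∈ X, G i = ∑ u ∈ E, G (Sum.inl u) := by
    intro G
    rw [hX, sum_map]
    rfl
  have h4 : ∑ i ∈ X, ξ i * MF a lam w y i = ∑ u ∈ E, ξ (Sum.inl u) * fn a u y0 := by
    rw [h3]
    apply sum_congr rfl
    intro u hu
    show ξ (Sum.inl u) * (w u * fn a u y) = _
    rw [hwE u hu, one_mul, hfn u (mem_union_right _ hu)]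
  have h5 : l1 (MF a lam w y) X = ∑ u ∈ E, |fn a u y0| := by
    unfold l1
    rw [h3]
    apply sum_congr rfl
    intro u hu
    show |w u * fn a u y| = _
    rw [hwE u hu, one_mul, hfn u (mem_union_right _ hu)]
  obtain ⟨H0, hH0⟩ : ∃ H0 : V ⊕ R → ℝ, H0 = Sum.elim
      (fun v => if v ∈ T then C * (q v * |fn a v y0|) else 0)
      (fun S => C * (lam S * tl (r S) (lam S) * |y0 S|)) := ⟨_, rfl⟩
  have hC0 : 0 < C := lt_of_lt_of_le (lt_of_lt_of_le one_pos hL) hC1
  have htl0 : ∀ S, 0 ≤ tl (r S) (lam S) := by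
    intro S
    unfold tl
    exact Real.rpow_nonneg (le_min zero_le_one (div_nonneg (hr0 S) (pow_pos (hlam S) 2).le)) _
  have hs3 : (∀ i ∈ X, i ∉ Q → 0 ≤ H0 i) ∧
      (∀ i ∈ Q, (fun j => θ j ^ (1 / 200 : ℝ)) i * |MF a lam w y i| ≤ H0 i) ∧
      (∀ i, i ∉ X → i ∉ Q → L * |MF a lam w y i| ≤ H0 i) := by
    refine ⟨?_, ?_, ?_⟩
    · intro i hi _
      rw [hX, mem_map] at hi
      obtain ⟨v, hv, rfl⟩ := hi
      rw [hH0]
      show 0 ≤ if v ∈ T then C * (q v * |fn a v y0|) else 0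
      split_ifs
      · have := hq0 v
        have := abs_nonneg (fn a v y0)
        positivity
      · exact le_rfl
    · intro i hi
      obtain ⟨S, hS, rfl⟩ := hQr' i hi
      rw [hH0]
      show θ (Sum.inr S) ^ (1 / 200 : ℝ) * |lam S * y S| ≤ C * (lam S * tl (r S) (lam S) * |y0 S|)
      rw [hθr, abs_mul, abs_of_pos (hlam S)]
      have hlb : lam S * |y S| ≤ lam S * |y0 S| :=
        mul_le_mul_of_nonneg_left (hya S) (hlam S).le
      obtain ⟨h7, h8⟩ := hQm S hS
      have h9 : tl (r S) (lam S) = (r S / lam S ^ 2) ^ (1 / 200 : ℝ) := by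
        unfold tl
        rw [min_eq_right (h8.trans hθ1)]
      rw [← h9]
      calc tl (r S) (lam S) * (lam S * |y S|) ≤ tl (r S) (lam S) * (lam S * |y0 S|) :=
            mul_le_mul_of_nonneg_left hlb (htl0 S)
        _ = 1 * (lam S * tl (r S) (lam S) * |y0 S|) := by ring
        _ ≤ C * (lam S * tl (r S) (lam S) * |y0 S|) := by
            apply mul_le_mul_of_nonneg_right (hL.trans hC1)
            have h10 := abs_nonneg (y0 S)
            have h11 := htl0 S
            have h12 := (hlam S).le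
            positivity
    · intro i hiX hiQ
      rcases i with v | S
      · rw [hH0]
        show L * |w v * fn a v y| ≤ if v ∈ T then C * (q v * |fn a v y0|) else 0
        rw [abs_mul, abs_of_nonneg (hw0 v)]
        have hvE : v ∉ E := fun h => hiX ((hmX v).2 h)
        by_cases h : v ∈ T
        · rw [if_pos h, hwT v h, hfn v (mem_union_left _ h)]
          exact mul_le_mul_of_nonneg_right hC1 (mul_nonneg (hq0 v) (abs_nonneg _))
        · rw [if_neg h, hwN v hvE h, zero_mul, mul_zero]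
      · rw [hH0]
        show L * |lam S * y S| ≤ C * (lam S * tl (r S) (lam S) * |y0 S|)
        have hlp := hlam S
        rw [abs_mul, abs_of_pos hlp]
        have hSQ : S ∉ Qr := fun h => hiQ ((hmQ S).2 h)
        have hla : 0 ≤ lam S * |y S| := mul_nonneg hlp.le (abs_nonneg _)
        have hlb : lam S * |y S| ≤ lam S * |y0 S| := mul_le_mul_of_nonneg_left (hya S) hlp.le
        by_cases h0 : r S = 0
        · have h8 : y S = 0 := by
            rw [hy]
            simp [h0]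
          rw [h8, abs_zero, mul_zero, mul_zero]
          have h10 := abs_nonneg (y0 S)
          have h11 := htl0 S
          positivity
        · have hrp : 0 < r S := lt_of_le_of_ne (hr0 S) (Ne.symm h0)
          have h8 : θ0 < r S / lam S ^ 2 := by
            by_contra h
            push Not at h
            apply hSQ
            rw [hQr, mem_filter]
            exact ⟨mem_univ _, hrp, h⟩
          have h9 : θ0 ^ (1 / 200 : ℝ) ≤ tl (r S) (lam S) := by
            unfold tl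
            exact Real.rpow_le_rpow hθ0.le (le_min hθ1 h8.le) (by norm_num)
          have h10 : L ≤ C * tl (r S) (lam S) := by
            calc L = C * θ0 ^ (1 / 200 : ℝ) := by
                  rw [hC]
                  field_simp
              _ ≤ _ := mul_le_mul_of_nonneg_left h9 hC0.le
          calc L * (lam S * |y S|) ≤ C * tl (r S) (lam S) * (lam S * |y0 S|) :=
                mul_le_mul h10 hlb hla (mul_nonneg hC0.le (htl0 S))
            _ = _ := by ring
  have h6 := sum_cost_le X Q (MF a lam w y) (fun j => θ j ^ (1 / 200 : ℝ)) H0 L hs3.1 hs3.2.1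
    hs3.2.2
  have h7 : ∑ i, H0 i = C * (∑ S, lam S * tl (∑ v ∈ T ∪ E, a v S ^ 2) (lam S) * |y0 S|
      + ∑ v ∈ T, q v * |fn a v y0|) := by
    rw [Fintype.sum_sum_type, hH0]
    simp only [Sum.elim_inl, Sum.elim_inr]
    rw [sum_ite_mem, univ_inter, ← mul_sum, ← mul_sum, ← mul_add, add_comm, hr]
  rw [h4, h5] at h1
  rw [← h7]
  linarith

end

end Pool.Agent.Helper81.KF
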